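import Pool.Agent.HEC.Stmts

/-! Row FN1 of squad HEC. -/

set_option autoImplicit false

open Finset

namespace Pool.Agent.HEC.H55

open Pool.Agent.HEC Pool.Agent.Helper51_Equitable

open Classical in
theorem cnt_eq_sum {α : Type} [Fintype α] (p : α → Prop) :
    ((cnt p : ℕ) : ℤ) = ∑ a, if p a then 1 else 0 := by
  unfold cnt
  rw [Finset.card_filter]
  push_cast
  rfl

theorem e2_eq {V : Type} [Fintype V] (H : SimpleGraph V) : e2 H = 2 * H.edgeSet.ncard := by
  classical
  have h1 : H.edgeSet.ncard = H.edgeFinset.card := by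
    rw [← SimpleGraph.coe_edgeFinset, Set.ncard_coe_finset]
  have h2 : ∀ v, H.degree v = ∑ w, if H.Adj v w then 1 else 0 := by
    intro v
    rw [← SimpleGraph.card_neighborFinset_eq_degree, SimpleGraph.neighborFinset_eq_filter,
      Finset.card_filter]
  rw [h1, ← SimpleGraph.sum_degrees_eq_twice_card_edges]
  unfold e2 cnt
  rw [Finset.card_filter, Fintype.sum_prod_type]
  apply Finset.sum_congr rfl
  intro v _
  rw [h2 v]

/-- the edges with a given value -/
def labG {V : Type} (G : SimpleGraph V) (x : V → V → ℤ) (hx : ∀ u v, x u v = x v u) (c : ℤ) :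
    SimpleGraph V where
  Adj u v := G.Adj u v ∧ x u v = c
  symm := ⟨fun u v h => ⟨h.1.symm, by rw [← hx u v]; exact h.2⟩⟩
  loopless := ⟨fun v h => G.loopless.irrefl v h.1⟩

/-- **FN1** -/
theorem fn1 : Fn1Stmt := by
  classical
  intro V _ G x m z hL hprop htot hm hz hmz
  have hsymm := hL.symm
  let ℓ : Sym2 V → ℕ := Sym2.lift ⟨fun u v => (2 + x u v).toNat, fun u v => by simp only [hsymm u v]⟩
  have hℓ : ∀ u v, ℓ s(u, v) = (2 + x u v).toNat := fun u v => rfl
  have hℓz : ∀ u v, ((ℓ s(u, v) : ℕ) : ℤ) = 2 + x u v := by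
    intro u v
    rw [hℓ]
    have := (hL.rng u v).1
    omega
  have hnb : ∀ l : ℕ, 1 ≤ l → 2 * nb G ℓ l = e2 (labG G x hsymm ((l : ℤ) - 2)) := by
    intro l hl
    rw [e2_eq]
    unfold nb
    congr 2
    ext e
    induction e using Sym2.ind with
    | _ u v =>
      simp only [Set.mem_ofPred_eq, SimpleGraph.mem_edgeSet]
      constructor
      · rintro ⟨h1, h2⟩
        refine ⟨h1, ?_⟩
        have := hℓz u v
        rw [h2] at this
        omega
      · rintro ⟨h1, h2⟩
        refine ⟨h1, ?_⟩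
        have := hℓz u v
        omega
  have hval : ∀ u v, x u v = -1 ∨ x u v = 0 ∨ x u v = 1 := by
    intro u v
    have := hL.rng u v
    omega
  -- the three sums
  have e1 : (e2 G : ℤ) = e2 (labG G x hsymm (-1)) + e2 (labG G x hsymm 0) +
      e2 (labG G x hsymm 1) := by
    unfold e2
    rw [cnt_eq_sum, cnt_eq_sum, cnt_eq_sum, cnt_eq_sum, ← Finset.sum_add_distrib,
      ← Finset.sum_add_distrib]
    apply Finset.sum_congr rfl
    intro p _
    by_cases h : G.Adj p.1 p.2
    · rcases hval p.1 p.2 with h1 | h1 | h1 <;> simp [labG, h, h1]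
    · simp [labG, h]
  have e3 : (sz x : ℤ) = e2 (labG G x hsymm (-1)) + e2 (labG G x hsymm 1) := by
    unfold e2 sz
    rw [cnt_eq_sum, cnt_eq_sum, cnt_eq_sum, ← Finset.sum_add_distrib]
    apply Finset.sum_congr rfl
    intro p _
    by_cases h : G.Adj p.1 p.2
    · rcases hval p.1 p.2 with h1 | h1 | h1 <;> simp [labG, h, h1]
    · simp [labG, h, hL.supp p.1 p.2 h]
  have e4 : (e2 (labG G x hsymm 1) : ℤ) - e2 (labG G x hsymm (-1)) = 0 := by
    rw [← htot]
    unfold e2 bd
    rw [cnt_eq_sum, cnt_eq_sum, ← Finset.sum_sub_distrib, Fintype.sum_prod_type]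
    apply Finset.sum_congr rfl
    intro u _
    apply Finset.sum_congr rfl
    intro v _
    by_cases h : G.Adj u v
    · rcases hval u v with h1 | h1 | h1 <;> simp [labG, h, h1]
    · simp [labG, h, hL.supp u v h]
  have n1 := hnb 1 (by norm_num)
  have n2 := hnb 2 (by norm_num)
  have n3 := hnb 3 (by norm_num)
  norm_num at n1 n2 n3
  have hr : ∀ e ∈ G.edgeSet, 1 ≤ ℓ e ∧ ℓ e ≤ 3 := by
    intro e he
    induction e using Sym2.ind with
    | _ u v =>
      have h1 := hℓz u v
      have h2 := hL.rng u v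
      omega
  refine ⟨ℓ, hr, ?_, ?_⟩
  · intro u v huv heq
    have hvs : ∀ w, ((vertexSum G ℓ w : ℕ) : ℤ) = 2 * (dg G w : ℤ) + bd x w := by
      intro w
      unfold vertexSum dg bd
      rw [cnt_eq_sum, Finset.mul_sum, ← Finset.sum_add_distrib]
      push_cast
      apply Finset.sum_congr rfl
      intro y _
      by_cases h : G.Adj w y
      · rw [if_pos h, if_pos h, hℓz w y]
        ring
      · rw [if_neg h, if_neg h, hL.supp w y h]
        ring
    apply hprop u v huv
    rw [← hvs u, ← hvs v, heq]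
  · have hnb0 : ∀ l, 0 < nb G ℓ l → l = 1 ∨ l = 2 ∨ l = 3 := by
      intro l hl
      unfold nb at hl
      have hne := Set.nonempty_of_ncard_ne_zero hl.ne'
      obtain ⟨e, he, hle⟩ := hne
      have := hr e he
      omega
    intro l l' hl hl'
    have c1 := hnb0 l hl
    have c2 := hnb0 l' hl'
    have k1 : nb G ℓ 1 = nb G ℓ 3 := by omega
    have k2 : nb G ℓ 2 = z := by omega
    have k3 : nb G ℓ 1 = (m + 1) / 3 := by omega
    rcases c1 with rfl | rfl | rfl <;> rcases c2 with rfl | rfl | rfl <;> omega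

end Pool.Agent.HEC.H55
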