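import Pool.Agent.HEC.Stmts

/-! Row POT of squad HEC. -/

set_option autoImplicit false

open Finset

namespace Pool.Agent.HEC.H55

open Pool.Agent.HEC

theorem ori_nonempty (V : Type) [Fintype V] (S : SimpleGraph V) : ∃ f : V → V → ℤ, Ori S f := by
  classical
  let e := Fintype.equivFin V
  refine ⟨fun u v => if S.Adj u v then (if e u < e v then 1 else -1) else 0, ?_, ?_, ?_⟩
  · intro u v
    by_cases h : S.Adj u v
    · have h' : S.Adj v u := h.symm
      have hne : e u ≠ e v := fun hh => h.ne (e.injective hh)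
      rcases lt_or_gt_of_ne hne with h1 | h1
      · simp [h, h', h1, not_lt.mpr h1.le]
      · simp [h, h', h1, not_lt.mpr h1.le]
    · have h' : ¬ S.Adj v u := fun hh => h hh.symm
      simp [h, h']
  · intro u v h
    by_cases h1 : e u < e v
    · simp [h, h1]
    · simp [h, h1]
  · intro u v h
    simp [h]

theorem ori_finite (V : Type) [Fintype V] (S : SimpleGraph V) : {f : V → V → ℤ | Ori S f}.Finite := by
  classical
  apply Set.Finite.subset (Set.finite_Icc (fun _ _ => -1 : V → V → ℤ) (fun _ _ => 1))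
  intro f hf
  have hb : ∀ u v, -1 ≤ f u v ∧ f u v ≤ 1 := by
    intro u v
    by_cases h : S.Adj u v
    · rcases hf.one u v h with h1 | h1 <;> rw [h1] <;> norm_num
    · rw [hf.supp u v h]
      norm_num
  exact ⟨fun u v => (hb u v).1, fun u v => (hb u v).2⟩

open Classical in
theorem flip_step {V : Type} [Fintype V] {S : SimpleGraph V} (φ : V → ℤ) {f : V → V → ℤ}
    (hf : Ori S f) {u v : V} (huv : S.Adj u v) (h1 : f u v = 1)
    (heq : φ u + 9 * bd f u = φ v + 9 * bd f v) :
    ∃ f' : V → V → ℤ, Ori S f' ∧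
      ∑ w, (φ w + 9 * bd f w) ^ 2 < ∑ w, (φ w + 9 * bd f' w) ^ 2 := by
  have hne : u ≠ v := huv.ne
  have h2 : f v u = -1 := by
    have := hf.anti v u
    rw [h1] at this
    exact this
  let f' : V → V → ℤ := fun a b =>
    f a b - (if a = u then (if b = v then 2 else 0) else 0)
      + (if a = v then (if b = u then 2 else 0) else 0)
  have hf' : ∀ a b, f' a b = f a b - (if a = u then (if b = v then 2 else 0) else 0)
      + (if a = v then (if b = u then 2 else 0) else 0) := fun a b => rfl
  have hcase : ∀ a b, (a = u ∧ b = v ∧ f' a b = -1) ∨ (a = v ∧ b = u ∧ f' a b = 1) ∨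
      (¬ (a = u ∧ b = v) ∧ ¬ (a = v ∧ b = u) ∧ f' a b = f a b) := by
    intro a b
    by_cases c1 : a = u ∧ b = v
    · left
      obtain ⟨rfl, rfl⟩ := c1
      refine ⟨rfl, rfl, ?_⟩
      rw [hf', h1]
      simp [hne]
    · right
      by_cases c2 : a = v ∧ b = u
      · left
        obtain ⟨rfl, rfl⟩ := c2
        refine ⟨rfl, rfl, ?_⟩
        rw [hf', h2]
        simp [hne.symm]
      · right
        refine ⟨c1, c2, ?_⟩
        rw [hf']
        by_cases d1 : a = u
        · have d2 : ¬ b = v := fun h => c1 ⟨d1, h⟩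
          have d3 : ¬ a = v := fun h => hne (d1.symm.trans h)
          rw [if_pos d1, if_neg d2, if_neg d3]
          ring
        · rw [if_neg d1]
          by_cases d3 : a = v
          · have d4 : ¬ b = u := fun h => c2 ⟨d3, h⟩
            rw [if_pos d3, if_neg d4]
            ring
          · rw [if_neg d3]
            ring
  refine ⟨f', ⟨?_, ?_, ?_⟩, ?_⟩
  · intro a b
    rcases hcase a b with ⟨ha, hb, h⟩ | ⟨ha, hb, h⟩ | ⟨ha, hb, h⟩
    · rcases hcase b a with ⟨ha', hb', h'⟩ | ⟨ha', hb', h'⟩ | ⟨ha', hb', h'⟩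
      · exact absurd (ha.symm.trans hb') hne
      · rw [h, h']
      · exact absurd ⟨hb, ha⟩ hb'
    · rcases hcase b a with ⟨ha', hb', h'⟩ | ⟨ha', hb', h'⟩ | ⟨ha', hb', h'⟩
      · rw [h, h']
        norm_num
      · exact absurd (hb.symm.trans ha') hne
      · exact absurd ⟨hb, ha⟩ ha'
    · rcases hcase b a with ⟨ha', hb', h'⟩ | ⟨ha', hb', h'⟩ | ⟨ha', hb', h'⟩
      · exact absurd ⟨hb', ha'⟩ hb
      · exact absurd ⟨hb', ha'⟩ ha
      · rw [h, h']
        exact hf.anti a b
  · intro a b hab
    rcases hcase a b with ⟨ha, hb, h⟩ | ⟨ha, hb, h⟩ | ⟨ha, hb, h⟩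
    · exact Or.inr h
    · exact Or.inl h
    · rw [h]
      exact hf.one a b hab
  · intro a b hab
    rcases hcase a b with ⟨ha, hb, h⟩ | ⟨ha, hb, h⟩ | ⟨ha, hb, h⟩
    · exact absurd (by rw [ha, hb]; exact huv) hab
    · exact absurd (by rw [ha, hb]; exact huv.symm) hab
    · rw [h]
      exact hf.supp a b hab
  · have hbd : ∀ w, bd f' w = bd f w - (if w = u then 2 else 0) + (if w = v then 2 else 0) := by
      intro w
      unfold bd
      simp only [hf', Finset.sum_add_distrib, Finset.sum_sub_distrib]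
      congr 1
      · congr 1
        by_cases c : w = u
        · simp [c]
        · simp [c]
      · by_cases c : w = v
        · simp [c]
        · simp [c]
    have hterm : ∀ w, (φ w + 9 * bd f' w) ^ 2 = (φ w + 9 * bd f w) ^ 2 +
        ((if w = u then (324 - 36 * (φ w + 9 * bd f w)) else 0) +
         (if w = v then (324 + 36 * (φ w + 9 * bd f w)) else 0)) := by
      intro w
      rw [hbd w]
      by_cases c1 : w = u
      · have c2 : ¬ w = v := fun h => hne (c1.symm.trans h)
        rw [if_pos c1, if_neg c2, if_pos c1, if_neg c2]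
        ring
      · by_cases c2 : w = v
        · rw [if_neg c1, if_pos c2, if_neg c1, if_pos c2]
          ring
        · rw [if_neg c1, if_neg c2, if_neg c1, if_neg c2]
          ring
    rw [Finset.sum_congr rfl (fun w _ => hterm w), Finset.sum_add_distrib,
      Finset.sum_add_distrib, Finset.sum_ite_eq' univ u, Finset.sum_ite_eq' univ v,
      if_pos (mem_univ u), if_pos (mem_univ v), heq]
    linarith

/-- **POT** -/
theorem pot : PotStmt := by
  intro V _ S φ
  obtain ⟨f0, hf0⟩ := ori_nonempty V S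
  obtain ⟨f, hf, hmax⟩ := Set.exists_max_image {f : V → V → ℤ | Ori S f}
    (fun f => ∑ w, (φ w + 9 * bd f w) ^ 2) (ori_finite V S) ⟨f0, hf0⟩
  refine ⟨f, hf, ?_⟩
  intro u v huv heq
  rcases hf.one u v huv with h1 | h1
  · obtain ⟨f', hf', hlt⟩ := flip_step φ hf huv h1 heq
    exact absurd (hmax f' hf') (not_le.mpr hlt)
  · have h2 : f v u = 1 := by
      have := hf.anti v u
      rw [h1] at this
      rw [this]
      norm_num
    obtain ⟨f', hf', hlt⟩ := flip_step φ hf huv.symm h2 heq.symm
    exact absurd (hmax f' hf') (not_le.mpr hlt)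

end Pool.Agent.HEC.H55
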